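import Pool.Agent.Helper94_CTD.EStmts
import Pool.Agent.Helper94_CTD.PA

/-!
# Module E1: values of the names
-/

namespace Pool.Agent.CTD.H72

open Pool.Agent.FL Pool.Agent.CTD

variable {B : Type 1} [CompleteBooleanAlgebra B]

theorem beq_refl (x : BSet B) : beq x x = ⊤ := (pa1 B).1 x
theorem beq_symm (x y : BSet B) : beq x y = beq y x := (pa1 B).2.1 x y
theorem beq_mem_left (x y z : BSet B) : beq x y ⊓ bmem x z ≤ bmem y z := (pa1 B).2.2.2.1 x y z
theorem beq_mem_right (x y z : BSet B) : beq y z ⊓ bmem x y ≤ bmem x z := (pa1 B).2.2.2.2.1 x y z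

theorem n1 (x : BSet B) (α : Th) : bmem x (chk α) = ⨆ β, ⨆ _ : β < α, beq x (chk β) := by
  rw [chk]
  show (⨆ i : Set.Iio α, ⊤ ⊓ beq x (chk i.1)) = _
  simp only [top_inf_eq]
  rw [iSup_subtype]
  rfl

theorem n2 (x : BSet B) : bmem x W2n = ⨆ β, beq x (chk β) := by
  show (⨆ i : Th, ⊤ ⊓ beq x (chk i)) = _
  simp only [top_inf_eq]

theorem n3' (β : Th) : ∀ α, β < α → beq (chk α : BSet B) (chk β) = ⊥ := by
  induction β using WellFoundedLT.induction with
  | ind β ih =>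
    intro α hα
    have h1 : bmem (chk β : BSet B) (chk α) = ⊤ := by
      rw [n1, eq_top_iff]
      refine le_iSup_of_le β (le_iSup_of_le hα ?_)
      rw [beq_refl]
    have h2 := beq_mem_right (chk β : BSet B) (chk α) (chk β)
    rw [h1, inf_top_eq, n1] at h2
    rw [eq_bot_iff]
    refine h2.trans (iSup_le fun γ => iSup_le fun hγ => ?_)
    rw [ih γ hγ β hγ]

theorem n3 (α β : Th) (h : α ≠ β) : beq (chk α : BSet B) (chk β) = ⊥ := by
  rcases lt_or_gt_of_ne h with h1 | h1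
  · rw [beq_symm]; exact n3' α β h1
  · exact n3' β α h1

theorem n4 (x : BSet B) (z : Th → B) : bmem x (pt z) = ⨆ α, z α ⊓ beq x (chk α) := rfl

theorem sup_chk (z : Th → B) (α : Th) : (⨆ β, z β ⊓ beq (chk α : BSet B) (chk β)) = z α := by
  apply le_antisymm
  · refine iSup_le fun β => ?_
    by_cases h : β = α
    · rw [h]; exact inf_le_left
    · rw [n3 α β (Ne.symm h), inf_bot_eq]; exact bot_le
  · refine le_iSup_of_le α ?_
    rw [beq_refl, inf_top_eq]

theorem n5 (z : Th → B) (α : Th) : bmem (chk α : BSet B) (pt z) = z α := by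
  rw [n4, sup_chk]

theorem n6 (x a b : BSet B) : bmem x (upr a b) = beq x a ⊔ beq x b := by
  show (⨆ i : ULift.{1} Bool, ⊤ ⊓ beq x (if i.down then a else b)) = _
  simp only [top_inf_eq]
  apply le_antisymm
  · refine iSup_le fun i => ?_
    split_ifs
    · exact le_sup_left
    · exact le_sup_right
  · refine sup_le ?_ ?_
    · exact le_iSup_of_le (ULift.up true) (by simp)
    · exact le_iSup_of_le (ULift.up false) (by simp)

theorem n7 (x : BSet B) (A : Th → BSet B) (R : Th → Th → B) :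
    bmem x (fnm A R) = ⨆ i, ⨆ ξ, R i ξ ⊓ beq x (opr (A i) (chk ξ)) := by
  show (⨆ p : Th × Th, R p.1 p.2 ⊓ beq x (opr (A p.1) (chk p.2))) = _
  rw [iSup_prod]

theorem n9 (x : BSet B) (F : Br → Th → B) (α0 : Th) (d : Th → Br) :
    bmem x (Dn F α0 d) = ⨆ i, ⨆ _ : i < α0, beq x (pt (F (d i))) := by
  classical
  show (⨆ i : Th, (if i < α0 then ⊤ else ⊥) ⊓ beq x (pt (F (d i)))) = _
  refine iSup_congr fun i => ?_
  by_cases h : i < α0
  · rw [if_pos h, top_inf_eq, iSup_pos h]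
  · rw [if_neg h, bot_inf_eq, iSup_neg h]

theorem bi_le {a b c d : B} (h1 : c ⊓ a ≤ b) (h2 : c ⊓ b ≤ a) (_ : d = d) : c ≤ bihimp a b := by
  rw [bihimp_def]
  exact le_inf (le_himp_iff.2 h2) (le_himp_iff.2 h1)

theorem beq_tr (a : BSet B) (z : Th → B) (α : Th) : beq a (pt z) ≤ bihimp (tr a α) (z α) := by
  rw [bihimp_def]
  refine le_inf (le_himp_iff.2 ?_) (le_himp_iff.2 ?_)
  · have h := beq_mem_right (chk α) (pt z) a
    rw [n5, beq_symm] at h
    exact h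
  · have h := beq_mem_right (chk α) a (pt z)
    rw [n5] at h
    exact h

theorem bihimp_trans (a b c : B) : bihimp a b ⊓ bihimp b c ≤ bihimp a c := by
  rw [bihimp_def, bihimp_def, bihimp_def]
  refine le_inf (le_himp_iff.2 ?_) (le_himp_iff.2 ?_)
  · -- c, (b → a) ∧ (a → b) ∧ (c → b) ∧ (b → c) ⊢ a
    have h1 : ((b ⇨ a) ⊓ (a ⇨ b) ⊓ ((c ⇨ b) ⊓ (b ⇨ c))) ⊓ c ≤ b := by
      calc _ ≤ (c ⇨ b) ⊓ c := inf_le_inf_right _ (inf_le_right.trans inf_le_left)
        _ ≤ b := himp_inf_le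
    calc _ ≤ (b ⇨ a) ⊓ b := le_inf (inf_le_left.trans (inf_le_left.trans inf_le_left)) h1
      _ ≤ a := himp_inf_le
  · have h1 : ((b ⇨ a) ⊓ (a ⇨ b) ⊓ ((c ⇨ b) ⊓ (b ⇨ c))) ⊓ a ≤ b := by
      calc _ ≤ (a ⇨ b) ⊓ a := inf_le_inf_right _ (inf_le_left.trans inf_le_right)
        _ ≤ b := himp_inf_le
    calc _ ≤ (b ⇨ c) ⊓ b := le_inf (inf_le_left.trans (inf_le_right.trans inf_le_right)) h1
      _ ≤ c := himp_inf_le

theorem isX_beq (a : BSet B) (F : Br → Th → B) (z : Th → B) :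
    IsX F z ⊓ beq a (pt z) ≤ IsX F (tr a) := by
  unfold IsX
  refine le_iInf fun K => ?_
  have h1 : (⨅ K : Finset Th, ⨆ b : Br, agr K z (F b)) ⊓ beq a (pt z)
      ≤ (⨆ b : Br, agr K z (F b)) ⊓ beq a (pt z) := inf_le_inf_right _ (iInf_le _ K)
  refine h1.trans ?_
  rw [iSup_inf_eq]
  refine iSup_mono fun b => ?_
  unfold agr
  refine le_iInf fun t => le_iInf fun ht => ?_
  calc (⨅ t ∈ K, bihimp (z t) (F b t)) ⊓ beq a (pt z)
      ≤ bihimp (z t) (F b t) ⊓ bihimp (tr a t) (z t) :=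
        inf_le_inf (iInf₂_le t ht) (beq_tr a z t)
    _ = bihimp (tr a t) (z t) ⊓ bihimp (z t) (F b t) := inf_comm _ _
    _ ≤ bihimp (tr a t) (F b t) := bihimp_trans _ _ _

theorem sub_pt (a : BSet B) :
    (⨅ x : BSet B, (bmem x a ⇨ bmem x W2n)) ≤ beq a (pt (tr a)) := by
  refine le_trans (le_iInf fun c => le_inf ?_ ?_) ((pa1 B).2.2.2.2.2.2.1 a (pt (tr a)))
  · refine (iInf_le _ c).trans (le_himp_iff.2 ?_)
    have h1 : (bmem c a ⇨ bmem c W2n) ⊓ bmem c a ≤ bmem c W2n ⊓ bmem c a :=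
      le_inf himp_inf_le inf_le_right
    refine h1.trans ?_
    rw [n2, iSup_inf_eq, n4]
    refine iSup_mono fun α => ?_
    exact le_inf (beq_mem_left c (chk α) a) inf_le_left
  · refine le_himp_iff.2 (inf_le_right.trans ?_)
    rw [n4]
    refine iSup_le fun α => ?_
    have h := beq_mem_left (chk α) c a
    rw [beq_symm, inf_comm] at h
    exact h

theorem n10 (a : BSet B) (F : Br → Th → B) :
    bmem a (Xn F) = IsX F (tr a) ⊓ ⨅ x : BSet B, (bmem x a ⇨ bmem x W2n) := by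
  apply le_antisymm
  · show (⨆ z : Th → B, IsX F z ⊓ beq a (pt z)) ≤ _
    refine iSup_le fun z => le_inf (isX_beq a F z) (inf_le_right.trans (le_iInf fun x => ?_))
    refine le_himp_iff.2 ((beq_mem_right x a (pt z)).trans ?_)
    rw [n4, n2]
    exact iSup_mono fun α => inf_le_right
  · show _ ≤ ⨆ z : Th → B, IsX F z ⊓ beq a (pt z)
    exact le_iSup_of_le (tr a) (inf_le_inf_left _ (sub_pt a))

theorem n11 (z z' : Th → B) : beq (pt z) (pt z') = ⨅ α, bihimp (z α) (z' α) := by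
  show (⨅ i : Th, z i ⇨ ⨆ j : Th, z' j ⊓ beq (chk i : BSet B) (chk j)) ⊓
    (⨅ j : Th, z' j ⇨ ⨆ i : Th, z i ⊓ beq (chk i : BSet B) (chk j)) = _
  have h1 : ∀ j, (⨆ i : Th, z i ⊓ beq (chk i : BSet B) (chk j)) = z j := by
    intro j
    rw [← sup_chk z j]
    refine iSup_congr fun i => ?_
    rw [beq_symm]
  simp only [sup_chk, h1]
  rw [← iInf_inf_eq]
  refine iInf_congr fun i => ?_
  rw [bihimp_def, inf_comm]

theorem e1 : E1Nm := by
  intro B _
  refine ⟨n1, n2, n3, n4, n5, n6, n7, fun _ _ => rfl, n9, n10, n11, ?_⟩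
  intro α
  rw [n2, eq_top_iff]
  refine le_iSup_of_le α ?_
  rw [beq_refl]

end Pool.Agent.CTD.H72
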