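import Pool.Agent.Helper94_CTD.EStmts

/-!
# Module E3: pairs and agreement in the model
-/

namespace Pool.Agent.CTD.H72

open Pool.Agent.FL Pool.Agent.CTD

section

variable {M : Type} {E : M → M → Prop}

theorem pair_unique (hZ : IsZFC E) {p p' x y : M} (h : IsPair E p x y) (h' : IsPair E p' x y) :
    p = p' := hZ.ext p p' fun c => (h c).trans (h' c).symm

theorem pair_inj (hZ : IsZFC E) {p x y x' y' : M} (h : IsPair E p x y) (h' : IsPair E p x' y') :
    x = x' ∧ y = y' := by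
  obtain ⟨s, hs⟩ := hZ.pair x x
  obtain ⟨d, hd⟩ := hZ.pair x y
  obtain ⟨d', hd'⟩ := hZ.pair x' y'
  have hs1 : ∀ u, E u s ↔ u = x := fun u => by rw [hs]; simp
  have hsp : E s p := (h s).2 (Or.inl hs1)
  have hdp : E d p := (h d).2 (Or.inr hd)
  have hdp' : E d' p := (h' d').2 (Or.inr hd')
  have hx : x = x' := by
    rcases (h' s).1 hsp with h1 | h1
    · exact ((hs1 x').1 ((h1 x').2 rfl)).symm
    · exact ((hs1 x').1 ((h1 x').2 (Or.inl rfl))).symm
  subst hx
  refine ⟨rfl, ?_⟩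
  rcases (h' d).1 hdp with h1 | h1
  · -- `{x, y} = {x}`
    have hy : y = x := (h1 y).1 ((hd y).2 (Or.inr rfl))
    subst hy
    rcases (h d').1 hdp' with h2 | h2
    · exact ((h2 y').1 ((hd' y').2 (Or.inr rfl))).symm
    · rcases (h2 y').1 ((hd' y').2 (Or.inr rfl)) with h4 | h4 <;> exact h4.symm
  · -- `{x, y} = {x, y'}`
    rcases (h1 y).1 ((hd y).2 (Or.inr rfl)) with h3 | h3
    · subst h3
      rcases (hd y').1 ((h1 y').2 (Or.inr rfl)) with h4 | h4 <;> exact h4.symm
    · exact h3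

end

section

variable {B : Type 1} [CompleteBooleanAlgebra B]

theorem flt_himp {G : Set B} (hG : Flt G) {u v : B} (hu : u ∈ G ∨ uᶜ ∈ G) :
    (u ⇨ v) ∈ G ↔ (u ∈ G → v ∈ G) := by
  constructor
  · intro h1 h2
    exact hG.up _ (hG.inf _ h1 _ h2) _ himp_inf_le
  · intro h
    rcases hu with h1 | h1
    · exact hG.up _ (h h1) _ le_himp
    · refine hG.up _ h1 _ ?_
      rw [le_himp_iff, compl_inf_self]
      exact bot_le

theorem flt_bihimp {G : Set B} (hG : Flt G) {u v : B} (hu : u ∈ G ∨ uᶜ ∈ G)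
    (hv : v ∈ G ∨ vᶜ ∈ G) : bihimp u v ∈ G ↔ (u ∈ G ↔ v ∈ G) := by
  rw [bihimp_def]
  constructor
  · intro h
    have h1 := (flt_himp hG hv).1 (hG.up _ h _ inf_le_left)
    have h2 := (flt_himp hG hu).1 (hG.up _ h _ inf_le_right)
    exact ⟨h2, h1⟩
  · intro h
    exact hG.inf _ ((flt_himp hG hv).2 h.2) _ ((flt_himp hG hu).2 h.1)

theorem flt_agr {G : Set B} (hG : Flt G) {T : Type*} (K : Finset T) (z z' : T → B) :
    agr K z z' ∈ G ↔ ∀ α ∈ K, bihimp (z α) (z' α) ∈ G := by
  classical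
  unfold agr
  constructor
  · intro h α hα
    exact hG.up _ h _ (iInf₂_le α hα)
  · intro h
    induction K using Finset.induction_on with
    | empty =>
      simp only [Finset.notMem_empty, iInf_false, iInf_top]
      exact hG.top
    | insert a K ha ih =>
      rw [Finset.iInf_insert]
      exact hG.inf _ (h a (Finset.mem_insert_self _ _)) _
        (ih fun α hα => h α (Finset.mem_insert_of_mem hα))

theorem e3 : E3De := by
  intro B _ H G M E π hB
  refine ⟨fun p p' x y => pair_unique hB.zfc, fun p x y x' y' => pair_inj hB.zfc, ?_, ?_,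
    hB.zfc.ext⟩
  · intro a x y ha hx hy
    have hp := hB.pair x y hx hy
    have ho := hB.opr x y hx hy
    rw [← hB.mem _ _ ho ha]
    constructor
    · rintro ⟨p, h1, h2⟩
      rwa [pair_unique hB.zfc h2 hp] at h1
    · intro h
      exact ⟨_, h, hp⟩
  · intro a a' K ha ha' hK
    rw [flt_agr hB.flt]
    refine forall₂_congr fun α hα => ?_
    have hc := hB.chk α (hK α hα)
    show bihimp (bmem (chk α) a) (bmem (chk α) a') ∈ G ↔ _
    rw [flt_bihimp hB.flt (hB.decm _ _ hc ha) (hB.decm _ _ hc ha'), hB.mem _ _ hc ha,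
      hB.mem _ _ hc ha']

end

end Pool.Agent.CTD.H72
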